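import Pool.Agent.Helper96.GPL.Seg

/-!
# Continuity of the Steiner length in the positions
-/

set_option autoImplicit false

namespace Pool.Agent.Helper96.GPL

open Relation Classical Pool.Agent.Helper18.GP

private theorem nlen_le_add {X : Type} {d d' : X → X → ℝ} {S : Set X} {δ : ℝ}
    (h : ∀ x ∈ S, ∀ y ∈ S, d' x y ≤ d x y + δ) :
    ∀ E : List (X × X), Nd S E → nlen d' E ≤ nlen d E + E.length * δ
  | [], _ => by simp [nlen]
  | e :: E, hE => by
      have ih := nlen_le_add h E fun f hf => hE f (List.mem_cons_of_mem _ hf)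
      have h1 := h e.1 (hE e List.mem_cons_self).1 e.2 (hE e List.mem_cons_self).2
      rw [nlen_cons, nlen_cons, List.length_cons]
      push_cast
      linarith

theorem pLnCont (hM : stMet) (hC : stCont) (hP : lCpt) (hB : lBound) (hL : stLnP) :
    stLnCont := by
  intro N V G hT B hBV
  rw [continuous_iff_continuousAt]
  intro P0
  set M : ℕ := 3 * B.card * (3 * B.card) with hMdef
  have hco : ((B.image dl : Finset (Fin N → ℝ)) : Set (Fin N → ℝ)) = dl '' (B : Set (Fin N)) := by
    rw [Finset.coe_image]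
  have unif : ∀ δ > 0, ∀ᶠ P in nhds P0, ∀ x ∈ Pts V G, ∀ y ∈ Pts V G,
      |dK V G P x y - dK V G P0 x y| < δ := by
    intro δ hδ
    have : CompactSpace ↥(Pts V G ×ˢ Pts V G) :=
      isCompact_iff_compactSpace.1 ((hP N V G).prod (hP N V G))
    let f : C((Fin N → ℂ) × ↥(Pts V G ×ˢ Pts V G), ℝ) :=
      ⟨fun q => dK V G q.1 q.2.1.1 q.2.1.2, by
        have h := hC N V G hT
        have h2 : Continuous (fun q : (Fin N → ℂ) × ↥(Pts V G ×ˢ Pts V G) =>
            (q.1, q.2.1.1, q.2.1.2)) := by fun_prop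
        exact h.comp_continuous h2 (fun q => ⟨q.2.2.1, q.2.2.2⟩)⟩
    have hf : Continuous f.curry := f.curry.continuous
    have hev := (hf.tendsto P0).eventually (Metric.ball_mem_nhds _ hδ)
    filter_upwards [hev] with P hPb x hx y hy
    have := ContinuousMap.dist_apply_le_dist (f := f.curry P) (g := f.curry P0)
      ⟨(x, y), hx, hy⟩
    rw [Real.dist_eq] at this
    exact this.trans_lt hPb
  have key : ∀ (P P' : Fin N → ℂ) (δ : ℝ), 0 ≤ δ →
      (∀ x ∈ Pts V G, ∀ y ∈ Pts V G, dK V G P' x y ≤ dK V G P x y + δ) →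
      Ln V G P' B ≤ Ln V G P B + M * δ := by
    intro P P' δ hδ h
    obtain ⟨E, hE, hc, hl⟩ := (hL N V G P hT).att B hBV
    obtain ⟨E', hE', hc', hl', hlen⟩ := hB (Fin N → ℝ) (Pts V G) (dK V G P) (B.image dl) E
      (MetP.pm (hM N V G P hT)) (by
        intro a ha
        rw [Finset.mem_image] at ha
        obtain ⟨v, hv, rfl⟩ := ha
        exact dl_mem G (hBV hv)) hE (by rw [hco]; exact hc)
    rw [hco] at hc'
    have h1 := Ln_le (hM N V G P' hT) hE' hc'
    have h2 := nlen_le_add h E' hE'
    have h3 : (E'.length : ℝ) * δ ≤ M * δ := by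
      apply mul_le_mul_of_nonneg_right _ hδ
      have : E'.length ≤ M := by
        rw [hMdef]
        refine hlen.trans ?_
        have := Finset.card_image_le (s := B) (f := dl (N := N))
        gcongr
      exact_mod_cast this
    linarith
  rw [Metric.continuousAt_iff']
  intro ε hε
  have hMp : (0 : ℝ) < M + 1 := by positivity
  have hδ : 0 < ε / (M + 1) := by positivity
  filter_upwards [unif _ hδ] with P hPu
  have h1 : Ln V G P B ≤ Ln V G P0 B + M * (ε / (M + 1)) := key P0 P _ hδ.le fun x hx y hy => by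
    have := hPu x hx y hy
    rw [abs_lt] at this
    linarith
  have h2 : Ln V G P0 B ≤ Ln V G P B + M * (ε / (M + 1)) := key P P0 _ hδ.le fun x hx y hy => by
    have := hPu x hx y hy
    rw [abs_lt] at this
    linarith
  have h3 : (M : ℝ) * (ε / (M + 1)) < ε := by
    rw [mul_div_assoc', div_lt_iff₀ hMp]
    nlinarith
  rw [Real.dist_eq, abs_lt]
  constructor <;> linarith

end Pool.Agent.Helper96.GPL
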