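import Pool.Agent.Helper96.GPL.Seg

/-!
# Basic properties of the Steiner length
-/

set_option autoImplicit false

namespace Pool.Agent.Helper96.GPL

open Relation Classical Pool.Agent.Helper18.GP

theorem dK_contOn (hC : stCont) {N : ℕ} {V : Finset (Fin N)} {G : SimpleGraph (Fin N)}
    (P : Fin N → ℂ) (hT : IsTri V G) :
    ContinuousOn (fun p : (Fin N → ℝ) × (Fin N → ℝ) => dK V G P p.1 p.2)
      (Pts V G ×ˢ Pts V G) := by
  have h := hC N V G hT
  have h2 : ContinuousOn (fun p : (Fin N → ℝ) × (Fin N → ℝ) => (P, p.1, p.2))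
      (Pts V G ×ˢ Pts V G) := by
    apply Continuous.continuousOn
    fun_prop
  exact h.comp h2 fun p hp => ⟨hp.1, hp.2⟩

theorem coe_image_dl {N : ℕ} (B : Finset (Fin N)) :
    ((B.image dl : Finset (Fin N → ℝ)) : Set (Fin N → ℝ)) = dl '' (B : Set (Fin N)) := by
  rw [Finset.coe_image]

theorem pLnP (hM : stMet) (hC : stCont) (h1 : lMin) (h2 : lLow) (h3 : lCpt) : stLnP := by
  intro N V G P hT
  have m := hM N V G P hT
  have att : ∀ B ⊆ V, ∃ E : List ((Fin N → ℝ) × (Fin N → ℝ)),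
      (∀ e ∈ E, e.1 ∈ Pts V G ∧ e.2 ∈ Pts V G) ∧ NConn E (dl '' (B : Set (Fin N))) ∧
      Ln V G P B = nlen (dK V G P) E := by
    intro B hB
    obtain ⟨E, hE, hc, hmin⟩ := h1 (Fin N → ℝ) (Pts V G) (dK V G P) (B.image dl) (h3 N V G)
      (MetP.pm m) (dK_contOn hC P hT) (by
        intro a ha
        rw [Finset.mem_image] at ha
        obtain ⟨v, hv, rfl⟩ := ha
        exact dl_mem G (hB hv))
    rw [coe_image_dl] at hc hmin
    refine ⟨E, hE, hc, le_antisymm (Ln_le m hE hc) ?_⟩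
    unfold Ln StL
    refine le_csInf ⟨_, E, hE, hc, rfl⟩ ?_
    rintro c ⟨E', hE', hc', rfl⟩
    exact hmin E' hE' hc'
  refine ⟨?_, ?_, ?_, ?_, ?_, att⟩
  · intro B hB
    obtain ⟨E, hE, _, hl⟩ := att B hB
    rw [hl]
    exact nlen_nonneg (MetP.pm m) hE
  · intro B hB B' hB'
    obtain ⟨E, hE, hc, hl⟩ := att B hB
    rw [hl]
    refine Ln_le m hE fun a ha b hb => hc a ?_ b ?_
    · exact Set.image_mono (by exact_mod_cast hB') ha
    · exact Set.image_mono (by exact_mod_cast hB') hb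
  · intro a ha
    obtain ⟨E, hE, _, hl⟩ := att {a} (by simpa using ha)
    apply le_antisymm
    · have : Ln V G P {a} ≤ nlen (dK V G P) [] := Ln_le m (by intro e he; simp at he) (by
        intro x hx y hy
        simp only [Finset.coe_singleton, Set.image_singleton, Set.mem_singleton_iff] at hx hy
        rw [hx, hy]
        exact EqvGen.refl _)
      simpa [nlen] using this
    · rw [hl]
      exact nlen_nonneg (MetP.pm m) hE
  · intro B hB B' hB' hne
    obtain ⟨E, hE, hc, hl⟩ := att B hB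
    obtain ⟨E', hE', hc', hl'⟩ := att B' hB'
    obtain ⟨w, hw⟩ := hne
    rw [Finset.mem_inter] at hw
    rw [hl, hl', ← nlen_append]
    refine Ln_le m ?_ ?_
    · intro e he
      rw [List.mem_append] at he
      exact he.elim (hE e) (hE' e)
    · have key : ∀ v ∈ B ∪ B', EqvGen (fun x y => (x, y) ∈ E ++ E') (dl v) (dl w) := by
        intro v hv
        rw [Finset.mem_union] at hv
        rcases hv with hv | hv
        · exact EqvGen.mono (fun x y h => List.mem_append_left _ h) _ _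
            (hc (dl v) ⟨v, hv, rfl⟩ (dl w) ⟨w, hw.1, rfl⟩)
        · exact EqvGen.mono (fun x y h => List.mem_append_right _ h) _ _
            (hc' (dl v) ⟨v, hv, rfl⟩ (dl w) ⟨w, hw.2, rfl⟩)
      rintro _ ⟨v, hv, rfl⟩ _ ⟨v', hv', rfl⟩
      exact (key v (by exact_mod_cast hv)).trans _ _ _ ((key v' (by exact_mod_cast hv')).symm _ _)
  · intro B hB a ha b hb
    obtain ⟨E, hE, hc, hl⟩ := att B hB
    rw [hl]
    exact h2 _ (Pts V G) _ E (dl a) (dl b) (MetP.pm m) (dl_mem G (hB ha)) (dl_mem G (hB hb)) hE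
      (hc _ ⟨a, ha, rfl⟩ _ ⟨b, hb, rfl⟩)

end Pool.Agent.Helper96.GPL
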