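import Pool.Agent.Helper96.GPL.Seg

/-!
# Retraction onto one side of an edge
-/

set_option autoImplicit false

namespace Pool.Agent.Helper96.GPL

open Relation Classical Pool.Agent.Helper18.GP

theorem nlen_map_le {X : Type} {d d' : X → X → ℝ} {S : Set X} {r : X → X}
    (h : ∀ x ∈ S, ∀ y ∈ S, d' (r x) (r y) ≤ d x y) :
    ∀ E : List (X × X), Nd S E → nlen d' (E.map fun e => (r e.1, r e.2)) ≤ nlen d E
  | [], _ => by simp [nlen]
  | e :: E, hE => by
      have ih := nlen_map_le h E fun f hf => hE f (List.mem_cons_of_mem _ hf)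
      have h1 := h e.1 (hE e List.mem_cons_self).1 e.2 (hE e List.mem_cons_self).2
      rw [List.map_cons, nlen_cons, nlen_cons]
      dsimp only
      linarith

private theorem min_sub (x y L : ℝ) : |min x L - min y L| ≤ |x - y| := by
  have := abs_min_sub_min_le_max x L y L
  rw [sub_self, abs_zero] at this
  exact this.trans (max_le le_rfl (abs_nonneg _))

theorem pRet (hA : stArcTri) (hM : stMet) (hG : stGlue) (hL : stLnP) : stRet := by
  intro N V G P hT a ha b hb hab B hB
  have m := hM N V G P hT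
  have g := hG N V G P hT a ha b hb hab
  set W := Arc V a b with hW
  have hTW : IsTri W G := hA N V G hT a ha b hb hab
  have mW := hM N W G P hTW
  have haW : a ∈ W := left_mem_Arc ha
  have hbW : b ∈ W := right_mem_Arc hb
  set L := ‖P a - P b‖ with hLdef
  have hL0 : 0 ≤ L := norm_nonneg _
  set T : (Fin N → ℝ) → ℝ := fun x => min (dK V G P (dl a) x) L / L with hTdef
  set r : (Fin N → ℝ) → (Fin N → ℝ) := fun x => if x ∈ Pts W G then x else seg a b (T x) with hr
  have haV := dl_mem G ha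
  have subW : ∀ x ∈ Pts W G, x ∈ Pts V G := fun x hx =>
    ⟨hx.1, hx.2.1, fun v hv => Arc_sub _ _ _ (hx.2.2.1 v hv), hx.2.2.2⟩
  have T01 : ∀ x ∈ Pts V G, T x ∈ Set.Icc (0 : ℝ) 1 := by
    intro x hx
    have hd := m.nonneg _ haV x hx
    refine ⟨div_nonneg (le_min hd hL0) hL0, div_le_one_of_le₀ (min_le_right _ _) hL0⟩
  have TL : ∀ x ∈ Pts V G, T x * L = min (dK V G P (dl a) x) L := by
    intro x hx
    have hd := m.nonneg _ haV x hx
    by_cases h0 : L = 0
    · simp only [hTdef]
      rw [h0, mul_zero, min_eq_right hd]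
    · simp only [hTdef]
      rw [div_mul_cancel₀ _ h0]
  have segV : ∀ {t : ℝ}, t ∈ Set.Icc (0 : ℝ) 1 → seg a b t ∈ Pts V G := fun ht =>
    seg_mem ha hb hab ht
  have segW : ∀ {t : ℝ}, t ∈ Set.Icc (0 : ℝ) 1 → seg a b t ∈ Pts W G := fun ht =>
    seg_mem haW hbW hab ht
  have dseg : ∀ {s t : ℝ}, s ∈ Set.Icc (0 : ℝ) 1 → t ∈ Set.Icc (0 : ℝ) 1 →
      dK V G P (seg a b s) (seg a b t) = |s * L - t * L| := by
    intro s t hs ht
    rw [dK_seg m ha hb hab hs ht, ← hLdef, ← sub_mul, abs_mul, abs_of_nonneg hL0]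
  have rW : ∀ x ∈ Pts V G, r x ∈ Pts W G := by
    intro x hx
    simp only [hr]
    split_ifs with h
    · exact h
    · exact segW (T01 x hx)
  have rid : ∀ x ∈ Pts W G, r x = x := fun x hx => by simp only [hr]; rw [if_pos hx]
  have rseg : ∀ x, x ∉ Pts W G → r x = seg a b (T x) := fun x hx => by
    simp only [hr]; rw [if_neg hx]
  have cross : ∀ x ∈ Pts W G, ∀ y ∈ Pts V G, y ∉ Pts W G →
      dK V G P (r x) (r y) ≤ dK V G P x y := by
    intro x hx y hy hyW
    have hxV := subW x hx
    have hy2 := (g.cover y hy).resolve_left hyW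
    obtain ⟨t, ht, hd⟩ := g.cross x hx y hy2
    rw [rid x hx, rseg y hyW, hd]
    have t1 := m.tri x hxV _ (segV ht) _ (segV (T01 y hy))
    have h2 : dK V G P (seg a b t) (seg a b (T y)) ≤ dK V G P (seg a b t) y := by
      rw [dseg ht (T01 y hy), TL y hy]
      have h3 : t * L = min (dK V G P (dl a) (seg a b t)) L := by
        rw [dK_a_seg m ha hb hab ht, ← hLdef]
        rw [min_eq_left (mul_le_of_le_one_left hL0 ht.2)]
      rw [h3]
      refine (min_sub _ _ _).trans ?_
      have t2 := m.tri _ haV _ (segV ht) y hy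
      have t3 := m.tri _ haV y hy _ (segV ht)
      rw [m.symm y hy _ (segV ht)] at t3
      rw [abs_le]
      constructor <;> linarith
    linarith
  have main : ∀ x ∈ Pts V G, ∀ y ∈ Pts V G, dK W G P (r x) (r y) ≤ dK V G P x y := by
    intro x hx y hy
    rw [g.sub _ (rW x hx) _ (rW y hy)]
    by_cases h : x ∈ Pts W G
    · by_cases h' : y ∈ Pts W G
      · rw [rid x h, rid y h']
      · exact cross x h y hy h'
    · by_cases h' : y ∈ Pts W G
      · rw [m.symm _ (subW _ (rW x hx)) _ (subW _ (rW y hy)), m.symm x hx y hy]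
        exact cross y h' x hx h
      · rw [rseg x h, rseg y h', dseg (T01 x hx) (T01 y hy), TL x hx, TL y hy]
        refine (min_sub _ _ _).trans ?_
        have t2 := m.tri _ haV _ hx y hy
        have t3 := m.tri _ haV y hy _ hx
        rw [m.symm y hy _ hx] at t3
        rw [abs_le]
        constructor <;> linarith
  obtain ⟨E, hE, hc, hlen⟩ := (hL N V G P hT).att B (hB.trans (Arc_sub _ _ _))
  have hlen2 := nlen_map_le main E hE
  rw [hlen]
  refine le_trans (Ln_le mW (E := E.map fun e => (r e.1, r e.2)) ?_ ?_) hlen2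
  · intro e he
    rw [List.mem_map] at he
    obtain ⟨f, hf, rfl⟩ := he
    exact ⟨rW _ (hE f hf).1, rW _ (hE f hf).2⟩
  · rintro _ ⟨v, hv, rfl⟩ _ ⟨v', hv', rfl⟩
    have := EqvGen_map r (hc (dl v) ⟨v, hv, rfl⟩ (dl v') ⟨v', hv', rfl⟩)
    rwa [rid _ (dl_mem G (hB hv)), rid _ (dl_mem G (hB hv'))] at this

end Pool.Agent.Helper96.GPL
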