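import Pool.Agent.Helper96.GPL.Seg

/-!
# Scaling
-/

set_option autoImplicit false

namespace Pool.Agent.Helper96.GPL

open Relation Classical Pool.Agent.Helper18.GP

open scoped Pointwise

variable {N : ℕ}

private theorem Ch_left {V : Finset (Fin N)} {G : SimpleGraph (Fin N)} {P : Fin N → ℂ}
    {x y : Fin N → ℝ} {l : ℝ} (h : Ch V G P x y l) : x ∈ Pts V G := by
  cases h <;> assumption

private theorem dev_aff {V : Finset (Fin N)} {G : SimpleGraph (Fin N)} (P : Fin N → ℂ) (c : ℝ)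
    (q : ℂ) {x : Fin N → ℝ} (hx : x ∈ Pts V G) :
    dev (fun v => c * P v + q) x = c * dev P x + q := by
  unfold dev
  have h1 : (∑ v, (x v : ℂ)) = 1 := by
    have := hx.2.1
    exact_mod_cast congrArg (fun t : ℝ => (t : ℂ)) this
  calc ∑ v, (x v : ℂ) * (c * P v + q) = c * ∑ v, (x v : ℂ) * P v + (∑ v, (x v : ℂ)) * q := by
        rw [Finset.mul_sum, Finset.sum_mul, ← Finset.sum_add_distrib]
        apply Finset.sum_congr rfl
        intro v _
        ring
    _ = _ := by rw [h1, one_mul]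

private theorem norm_aff {V : Finset (Fin N)} {G : SimpleGraph (Fin N)} (P : Fin N → ℂ) {c : ℝ}
    (hc : 0 ≤ c) (q : ℂ) {x y : Fin N → ℝ} (hx : x ∈ Pts V G) (hy : y ∈ Pts V G) :
    ‖dev (fun v => c * P v + q) x - dev (fun v => c * P v + q) y‖ = c * ‖dev P x - dev P y‖ := by
  rw [dev_aff P c q hx, dev_aff P c q hy, add_sub_add_right_eq_sub, ← mul_sub, norm_mul,
    Complex.norm_real, Real.norm_eq_abs, abs_of_nonneg hc]

private theorem Ch_aff {V : Finset (Fin N)} {G : SimpleGraph (Fin N)} {P : Fin N → ℂ} {c : ℝ}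
    (hc : 0 ≤ c) (q : ℂ) {x y : Fin N → ℝ} {l : ℝ} (h : Ch V G P x y l) :
    Ch V G (fun v => c * P v + q) x y (c * l) := by
  induction h with
  | nil x hx => rw [mul_zero]; exact Ch.nil x hx
  | cons x y z l hx hs h ih =>
      have hy := Ch_left h
      rw [mul_add, ← norm_aff P hc q hx hy]
      exact Ch.cons x y z _ hx hs ih

private theorem Ch_aff' {V : Finset (Fin N)} {G : SimpleGraph (Fin N)} {P : Fin N → ℂ} {c : ℝ}
    (hc : 0 ≤ c) (q : ℂ) {x y : Fin N → ℝ} {l' : ℝ} (h : Ch V G (fun v => c * P v + q) x y l') :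
    ∃ l, Ch V G P x y l ∧ l' = c * l := by
  induction h with
  | nil x hx => exact ⟨0, Ch.nil x hx, by rw [mul_zero]⟩
  | cons x y z l hx hs h ih =>
      have hy := Ch_left h
      obtain ⟨l0, h0, rfl⟩ := ih
      exact ⟨_, Ch.cons x y z _ hx hs h0, by rw [norm_aff P hc q hx hy, mul_add]⟩

theorem dK_aff (V : Finset (Fin N)) (G : SimpleGraph (Fin N)) (P : Fin N → ℂ) {c : ℝ}
    (hc : 0 ≤ c) (q : ℂ) (x y : Fin N → ℝ) :
    dK V G (fun v => c * P v + q) x y = c * dK V G P x y := by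
  unfold dK
  rw [← smul_eq_mul, ← Real.sInf_smul_of_nonneg hc]
  congr 1
  ext l
  rw [Set.mem_smul_set]
  constructor
  · intro h
    obtain ⟨l0, h0, rfl⟩ := Ch_aff' hc q h
    exact ⟨l0, h0, rfl⟩
  · rintro ⟨l0, h0, rfl⟩
    exact Ch_aff hc q h0

theorem nlen_smul {X : Type} (d : X → X → ℝ) (c : ℝ) (E : List (X × X)) :
    nlen (fun x y => c * d x y) E = c * nlen d E := by
  unfold nlen
  exact List.sum_map_mul_left E (fun e => d e.1 e.2) c

theorem pScale : stScale := by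
  intro N V G P c q hc _
  have hd : dK V G (fun v => c * P v + q) = fun x y => c * dK V G P x y := by
    funext x y
    exact dK_aff V G P hc q x y
  refine ⟨fun B _ => ?_, fun a _ b _ => dK_aff V G P hc q _ _⟩
  unfold Ln StL
  rw [← smul_eq_mul, ← Real.sInf_smul_of_nonneg hc]
  congr 1
  ext l
  rw [Set.mem_smul_set]
  constructor
  · rintro ⟨E, hE, hN, rfl⟩
    exact ⟨_, ⟨E, hE, hN, rfl⟩, by rw [hd, nlen_smul, smul_eq_mul]⟩
  · rintro ⟨_, ⟨E, hE, hN, rfl⟩, rfl⟩
    exact ⟨E, hE, hN, by rw [hd, nlen_smul, smul_eq_mul]⟩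

end Pool.Agent.Helper96.GPL
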