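import Pool.Agent.Helper96.GPL.Seg

/-!
# Shortest networks are trees
-/

set_option autoImplicit false

namespace Pool.Agent.Helper96.GPL

open Relation Classical Pool.Agent.Helper18.GP

theorem pTree (hM : stMet) (hL : stLnP) (h4 : lDeg) (h2 : lTreeList) : stTree := by
  intro N V G P hT _ _ A hA hne
  have m := hM N V G P hT
  obtain ⟨E, hE, hc, hl⟩ := (hL N V G P hT).att A hA
  have hco : ((A.image dl : Finset (Fin N → ℝ)) : Set (Fin N → ℝ)) = dl '' (A : Set (Fin N)) := by
    rw [Finset.coe_image]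
  obtain ⟨k, H, x, hTN, hdeg, hlen⟩ := h4 (Fin N → ℝ) (Pts V G) (dK V G P) (A.image dl) E
    (MetP.pm m) (hne.image dl) (by
      intro a ha
      rw [Finset.mem_image] at ha
      obtain ⟨v, hv, rfl⟩ := ha
      exact dl_mem G (hA hv)) hE (by rw [hco]; exact hc)
  have hcov : ∀ a ∈ A, ∃ i, x i = dl a := fun a ha =>
    hTN.cov (dl a) (by exact_mod_cast Finset.mem_image_of_mem dl ha)
  refine ⟨k, H, x, hTN.tree, hTN.mem, hTN.inj, hcov, ?_, ?_⟩
  · intro i hi
    have h := hdeg i (by
      intro h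
      rw [Finset.mem_image] at h
      obtain ⟨a, ha, hx⟩ := h
      exact hi a ha hx.symm)
    convert h
  · apply le_antisymm
    · rw [hl]; exact hlen
    · obtain ⟨E', hE', hc', hl', _⟩ := h2 (Fin N → ℝ) (Pts V G) (dl '' (A : Set (Fin N)))
        (dK V G P) k H x (MetP.pm m) hTN.mem hTN.tree.1 (by
          rintro _ ⟨a, ha, rfl⟩
          exact hcov a ha)
      rw [← hl']
      exact Ln_le m hE' hc'

end Pool.Agent.Helper96.GPL
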