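import Pool.Agent.Helper36.GPL.LOW
import Pool.Agent.Helper36.GPL.T3
import Pool.Agent.Helper44.GPL.T1
import Pool.Agent.Helper44.GPL.T2
import Pool.Agent.Helper77.GPL.B
import Pool.Agent.Helper77.GPL.CPT
import Pool.Agent.Helper77.GPL.T5
import Pool.Agent.Helper77.GPL.MIN
import Pool.Agent.Helper81.GPL.T4
import Pool.Agent.Helper96.GPL.LNCONT
import Pool.Agent.Helper96.GPL.LNP
import Pool.Agent.Helper96.GPL.RET
import Pool.Agent.Helper96.GPL.SCALE
import Pool.Agent.Helper96.GPL.TREE
import Pool.Agent.Helper96.GPL.ZERO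

/-!
# Chapter LEN: all statements of the chapter from the chapters MET and COMB
-/

set_option autoImplicit false

namespace Pool.Agent.Helper96.GPL

open Pool.Agent.Helper18.GP

theorem tListTree : lListTree := Pool.Agent.Helper44.GPL.pListTree
theorem tTreeList : lTreeList := Pool.Agent.Helper44.GPL.pTreeList
theorem tRed : lRed := Pool.Agent.Helper36.GPL.pRed
theorem tDeg : lDeg := Pool.Agent.Helper81.GPL.pDeg tListTree tRed
theorem tCard : lCard := Pool.Agent.Helper77.GPL.pCard
theorem tBound : lBound := Pool.Agent.Helper77.GPL.pBound tTreeList tDeg tCard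
theorem tLow : lLow := Pool.Agent.Helper36.GPL.pLow
theorem tMin : lMin := Pool.Agent.Helper77.GPL.pMin tTreeList tDeg tCard
theorem tCpt : lCpt := Pool.Agent.Helper77.GPL.pCpt

theorem LnP_of (hM : stMet) (hC : stCont) : stLnP := pLnP hM hC tMin tLow tCpt

theorem LnCont_of (hM : stMet) (hC : stCont) : stLnCont := pLnCont hM hC tCpt tBound (LnP_of hM hC)

theorem Scale : stScale := pScale

theorem Ret_of (hA : stArcTri) (hM : stMet) (hC : stCont) (hG : stGlue) : stRet :=
  pRet hA hM hG (LnP_of hM hC)

theorem Zero_of (hM : stMet) (hC : stCont) (hG : stGlue) : stZero :=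
  pZero hM hG (LnP_of hM hC)

theorem Tree_of (hM : stMet) (hC : stCont) : stTree := pTree hM (LnP_of hM hC) tDeg tTreeList

end Pool.Agent.Helper96.GPL
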