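import Pool.Agent.Helper96.GPL.St
import Pool.Agent.Helper18.GP.Cyc

/-!
# Points of an edge, simple facts on networks
-/

set_option autoImplicit false

namespace Pool.Agent.Helper96.GPL

open Relation Pool.Agent.Helper18.GP

variable {N : ℕ}

theorem seg_zero (a b : Fin N) : seg a b 0 = dl a := by
  funext v; simp [seg]

theorem seg_one (a b : Fin N) : seg a b 1 = dl b := by
  funext v; simp [seg]

theorem seg_ne {a b v : Fin N} {t : ℝ} (h : seg a b t v ≠ 0) : v = a ∨ v = b := by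
  by_contra hc
  push Not at hc
  apply h
  unfold seg dl
  rw [Pi.single_eq_of_ne hc.1, Pi.single_eq_of_ne hc.2]
  simp

theorem seg_mem {V : Finset (Fin N)} {G : SimpleGraph (Fin N)} {a b : Fin N} (ha : a ∈ V)
    (hb : b ∈ V) (h : G.Adj a b) {t : ℝ} (ht : t ∈ Set.Icc (0 : ℝ) 1) : seg a b t ∈ Pts V G := by
  have h1 := dl_mem G ha
  have h2 := dl_mem G hb
  refine ⟨?_, ?_, ?_, ?_⟩
  · intro v
    have := mul_nonneg (sub_nonneg.2 ht.2) (h1.1 v)
    have := mul_nonneg ht.1 (h2.1 v)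
    unfold seg
    linarith
  · unfold seg
    rw [Finset.sum_add_distrib, ← Finset.mul_sum, ← Finset.mul_sum, h1.2.1, h2.2.1]
    ring
  · intro v hv
    rcases seg_ne hv with rfl | rfl <;> assumption
  · intro u v hu hv huv
    rcases seg_ne hu with rfl | rfl <;> rcases seg_ne hv with rfl | rfl
    · exact absurd rfl huv
    · exact h
    · exact h.symm
    · exact absurd rfl huv

theorem dev_seg (P : Fin N → ℂ) (a b : Fin N) (t : ℝ) :
    dev P (seg a b t) = (1 - (t : ℂ)) * P a + (t : ℂ) * P b := by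
  have h1 := dev_dl P a
  have h2 := dev_dl P b
  unfold dev at h1 h2 ⊢
  rw [← h1, ← h2, Finset.mul_sum, Finset.mul_sum, ← Finset.sum_add_distrib]
  apply Finset.sum_congr rfl
  intro v _
  unfold seg
  push_cast
  ring

theorem Sh_seg {G : SimpleGraph (Fin N)} {a b : Fin N} (h : G.Adj a b) (s t : ℝ) :
    Sh G (seg a b s) (seg a b t) := by
  intro u v hu hv huv
  have hu' : u = a ∨ u = b := hu.elim seg_ne seg_ne
  have hv' : v = a ∨ v = b := hv.elim seg_ne seg_ne
  rcases hu' with rfl | rfl <;> rcases hv' with rfl | rfl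
  · exact absurd rfl huv
  · exact h
  · exact h.symm
  · exact absurd rfl huv

theorem dK_seg {V : Finset (Fin N)} {G : SimpleGraph (Fin N)} {P : Fin N → ℂ} (m : MetP V G P)
    {a b : Fin N} (ha : a ∈ V) (hb : b ∈ V) (h : G.Adj a b) {s t : ℝ}
    (hs : s ∈ Set.Icc (0 : ℝ) 1) (ht : t ∈ Set.Icc (0 : ℝ) 1) :
    dK V G P (seg a b s) (seg a b t) = |s - t| * ‖P a - P b‖ := by
  rw [m.sh _ (seg_mem ha hb h hs) _ (seg_mem ha hb h ht) (Sh_seg h s t), dev_seg, dev_seg]
  have : (1 - (s : ℂ)) * P a + (s : ℂ) * P b - ((1 - (t : ℂ)) * P a + (t : ℂ) * P b)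
      = ((t - s : ℝ) : ℂ) * (P a - P b) := by
    push_cast
    ring
  rw [this, norm_mul, Complex.norm_real, Real.norm_eq_abs, abs_sub_comm]

theorem dK_edge {V : Finset (Fin N)} {G : SimpleGraph (Fin N)} {P : Fin N → ℂ} (m : MetP V G P)
    {a b : Fin N} (ha : a ∈ V) (hb : b ∈ V) (h : G.Adj a b) :
    dK V G P (dl a) (dl b) = ‖P a - P b‖ := by
  rw [← seg_zero a b, ← seg_one a b, dK_seg m ha hb h (by simp) (by simp)]
  simp

theorem dK_a_seg {V : Finset (Fin N)} {G : SimpleGraph (Fin N)} {P : Fin N → ℂ} (m : MetP V G P)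
    {a b : Fin N} (ha : a ∈ V) (hb : b ∈ V) (h : G.Adj a b) {t : ℝ} (ht : t ∈ Set.Icc (0 : ℝ) 1) :
    dK V G P (dl a) (seg a b t) = t * ‖P a - P b‖ := by
  rw [← seg_zero a b, dK_seg m ha hb h (by simp) ht]
  rw [zero_sub, abs_neg, abs_of_nonneg ht.1]

theorem MetP.pm {V : Finset (Fin N)} {G : SimpleGraph (Fin N)} {P : Fin N → ℂ} (m : MetP V G P) :
    PM (Pts V G) (dK V G P) :=
  ⟨m.nonneg, m.self, m.symm, m.tri⟩

theorem nlen_nonneg {X : Type} {S : Set X} {d : X → X → ℝ} (h : PM S d) {E : List (X × X)}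
    (hE : Nd S E) : 0 ≤ nlen d E := by
  unfold nlen
  apply List.sum_nonneg
  intro c hc
  rw [List.mem_map] at hc
  obtain ⟨e, he, rfl⟩ := hc
  exact h.nonneg _ (hE e he).1 _ (hE e he).2

theorem nlen_cons {X : Type} (d : X → X → ℝ) (e : X × X) (E : List (X × X)) :
    nlen d (e :: E) = d e.1 e.2 + nlen d E := by
  simp [nlen]

theorem nlen_append {X : Type} (d : X → X → ℝ) (E F : List (X × X)) :
    nlen d (E ++ F) = nlen d E + nlen d F := by
  simp [nlen]

theorem StL_bdd {X : Type} {S : Set X} {d : X → X → ℝ} (h : PM S d) (A : Set X) :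
    BddBelow {c | ∃ E : List (X × X), (∀ e ∈ E, e.1 ∈ S ∧ e.2 ∈ S) ∧ NConn E A ∧ c = nlen d E} := by
  refine ⟨0, ?_⟩
  rintro c ⟨E, hE, _, rfl⟩
  exact nlen_nonneg h hE

theorem Ln_le {V : Finset (Fin N)} {G : SimpleGraph (Fin N)} {P : Fin N → ℂ} (m : MetP V G P)
    {B : Finset (Fin N)} {E : List ((Fin N → ℝ) × (Fin N → ℝ))} (hE : Nd (Pts V G) E)
    (hc : NConn E (dl '' (B : Set (Fin N)))) : Ln V G P B ≤ nlen (dK V G P) E := by
  unfold Ln StL
  exact csInf_le (StL_bdd (MetP.pm m) _) ⟨E, hE, hc, rfl⟩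

theorem EqvGen_map {X Y : Type} (r : X → Y) {E : List (X × X)} {x y : X}
    (h : EqvGen (fun u v => (u, v) ∈ E) x y) :
    EqvGen (fun u v => (u, v) ∈ E.map (fun e => (r e.1, r e.2))) (r x) (r y) := by
  induction h with
  | rel u v h =>
      apply EqvGen.rel
      rw [List.mem_map]
      exact ⟨(u, v), h, rfl⟩
  | refl u => exact EqvGen.refl _
  | symm u v _ ih => exact EqvGen.symm _ _ ih
  | trans u v w _ _ ih1 ih2 => exact EqvGen.trans _ _ _ ih1 ih2

end Pool.Agent.Helper96.GPL
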