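import Pool.Agent.Helper18.GP.Api

/-!
# GP, chapter LEN: networks, trees, shortest networks

Abstract part: a pseudo metric `d` on a set `S` of points of a type `X`.  Every `l...` is a proposition which is proved in its own
module `Pool/Agent/HelperYOU/GPL/<name>.lean`; other `l...` and the `st...` of `Helper18/GP/Api.lean` are hypotheses.
-/

set_option autoImplicit false

namespace Pool.Agent.Helper96.GPL

open Relation Classical Pool.Agent.Helper18.GP

/-- `d` is a pseudo metric on `S` -/
structure PM {X : Type} (S : Set X) (d : X → X → ℝ) : Prop where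
  nonneg : ∀ x ∈ S, ∀ y ∈ S, 0 ≤ d x y
  self : ∀ x ∈ S, d x x = 0
  symm : ∀ x ∈ S, ∀ y ∈ S, d x y = d y x
  tri : ∀ x ∈ S, ∀ y ∈ S, ∀ z ∈ S, d x z ≤ d x y + d y z

/-- tree network: a tree with different nodes in `S`, the points of `A` are nodes -/
structure TN {X : Type} (S A : Set X) {k : ℕ} (H : SimpleGraph (Fin k)) (x : Fin k → X) : Prop where
  tree : H.IsTree
  mem : ∀ i, x i ∈ S
  inj : Function.Injective x
  cov : ∀ a ∈ A, ∃ i, x i = a

/-- the nodes of the network `E` are in `S` -/
def Nd {X : Type} (S : Set X) (E : List (X × X)) : Prop := ∀ e ∈ E, e.1 ∈ S ∧ e.2 ∈ S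

/-- (T1) From a network to a tree network.  PROOF.  `R x y := (x, y) ∈ E`, `Γ := SimpleGraph.fromRel R` on `X`; `EqvGen R x y → Γ.Reachable x y` (induction).
`a₀ ∈ A`, `C := Γ.connectedComponentMk a₀`; `C.supp` contains `A` and is finite (all its elements are `a₀` or an entry of a pair of `E`: a vertex `≠ a₀` reachable from
`a₀` has a neighbour).  `Γ.induce C.supp` is connected (Mathlib: `SimpleGraph.ConnectedComponent.connected_toSimpleGraph` or similar), so has a spanning tree `T`
(`SimpleGraph.Connected.exists_isTree_le`); transport to `Fin k`, `k = Nat.card C.supp`, by an equivalence `Fin k ≃ C.supp` (`Finite.equivFin`).  Length: twice `tlen` is the sum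
over the ordered pairs `(i, j)` with `H.Adj i j`; for each of them `(x i, x j) ∈ E` or `(x j, x i) ∈ E`; each of the two parts is at most `∑ e ∈ E.toFinset, d e.1 e.2 ≤ nlen d E`, because
`(i, j) ↦ (x i, x j)` is injective (`Finset.sum_le_sum_of_subset_of_nonneg` after `Finset.sum_image`) and the terms are nonnegative. -/
def lListTree : Prop := ∀ (X : Type) (S : Set X) (d : X → X → ℝ) (A : Finset X) (E : List (X × X)),
  PM S d → A.Nonempty → (∀ a ∈ A, a ∈ S) → Nd S E → NConn E (A : Set X) →
  ∃ (k : ℕ) (H : SimpleGraph (Fin k)) (x : Fin k → X), TN S (A : Set X) H x ∧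
    (∀ i, x i ∈ A ∨ ∃ e ∈ E, x i = e.1 ∨ x i = e.2) ∧ tlen d H x ≤ nlen d E

/-- (T2) From a drawn connected graph (nodes not necessarily different) to a network.  PROOF.  `E` = the list of the pairs `(x i, x j)`, `i < j`, `H.Adj i j`
(`Finset.toList` of a filter of `univ ×ˢ univ`, mapped).  By symmetry of `d` the sum over the ordered pairs is twice the sum over `i < j`.  `H.Reachable i j → EqvGen (· ∈ E) (x i) (x j)`
(induction on a walk). -/
def lTreeList : Prop := ∀ (X : Type) (S A : Set X) (d : X → X → ℝ) (k : ℕ) (H : SimpleGraph (Fin k))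
  (x : Fin k → X), PM S d → (∀ i, x i ∈ S) → H.Connected → (∀ a ∈ A, ∃ i, x i = a) →
  ∃ E : List (X × X), Nd S E ∧ NConn E A ∧ nlen d E = tlen d H x ∧ E.length ≤ k * k

/-- (T3) Removal of a node `x i ∉ A` of degree at most two.  PROOF.  There is `a ∈ A`, a node `x j = a`, `j ≠ i`, so (connected) `i` has a neighbour `p`.  Let `f i = p` and `f u = u` for
`u ≠ i`.  `E` = list of the pairs `(x (f u), x (f v))` for `u < v`, `H.Adj u v`, except the edge `{u, v} = {i, p}`.  `H.Reachable u v → EqvGen (· ∈ E) (x (f u)) (x (f v))` (the edge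
`{i, p}` becomes trivial), and `f` fixes the nodes in `A`.  Length: the edges without `i` are unchanged; there is at most one neighbour `q ≠ p` of `i` and
`d (x p) (x q) ≤ d (x i) (x p) + d (x i) (x q)`. -/
def lRed : Prop := ∀ (X : Type) (S : Set X) (d : X → X → ℝ) (A : Finset X) (k : ℕ)
  (H : SimpleGraph (Fin k)) (x : Fin k → X), PM S d → A.Nonempty → TN S (A : Set X) H x →
  ∀ i, x i ∉ A → (Finset.univ.filter fun j => H.Adj i j).card ≤ 2 →
  ∃ E : List (X × X), NConn E (A : Set X) ∧ nlen d E ≤ tlen d H x ∧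
    ∀ e ∈ E, (∃ j, j ≠ i ∧ e.1 = x j) ∧ ∃ j, j ≠ i ∧ e.2 = x j

/-- (T4) PROOF from (T1), (T3).  Start with the tree network of (T1) and take one with the least `k` among those with `tlen ≤ nlen d E` (`Nat.find` or strong induction on `k`).  If a node `x i ∉ A` has
degree `≤ 2`, apply (T3) and then (T1): the new nodes are in `A` or entries of the new network, so all of them are of the form `x j`, `j ≠ i` (`a ∈ A` is some `x j`, `j ≠ i` since `x i ∉ A`); the new
node map is injective, so `k' ≤ k - 1` (`Finset.card_le_card_of_injOn` or `Fintype.card_le_of_injective` into `{j // j ≠ i}`): contradiction. -/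
def lDeg : Prop := ∀ (X : Type) (S : Set X) (d : X → X → ℝ) (A : Finset X) (E : List (X × X)),
  PM S d → A.Nonempty → (∀ a ∈ A, a ∈ S) → Nd S E → NConn E (A : Set X) →
  ∃ (k : ℕ) (H : SimpleGraph (Fin k)) (x : Fin k → X), TN S (A : Set X) H x ∧
    (∀ i, x i ∉ A → 3 ≤ (Finset.univ.filter fun j => H.Adj i j).card) ∧ tlen d H x ≤ nlen d E

/-- (T5) PROOF.  `s` = number of the `i` with `x i ∉ A`; `k - s ≤ card A` (injectivity of `x`).  The sum of the degrees is `2 (k - 1)` (`SimpleGraph.sum_degrees_eq_twice_card_edges`,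
`SimpleGraph.IsTree.card_edgeFinset`), so `3 s ≤ 2 (k - 1) ≤ 2 k`, and `3 (k - card A) ≤ 2 k`. -/
def lCard : Prop := ∀ (X : Type) (S : Set X) (A : Finset X) (k : ℕ) (H : SimpleGraph (Fin k))
  (x : Fin k → X), TN S (A : Set X) H x →
  (∀ i, x i ∉ A → 3 ≤ (Finset.univ.filter fun j => H.Adj i j).card) → k ≤ 3 * A.card

/-- (B) Networks with few pairs.  PROOF.  `A` empty: `[]` (`0 ≤ nlen d E` by nonnegativity).  Otherwise (T4), (T5), (T2). -/
def lBound : Prop := ∀ (X : Type) (S : Set X) (d : X → X → ℝ) (A : Finset X) (E : List (X × X)),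
  PM S d → (∀ a ∈ A, a ∈ S) → Nd S E → NConn E (A : Set X) →
  ∃ E' : List (X × X), Nd S E' ∧ NConn E' (A : Set X) ∧ nlen d E' ≤ nlen d E ∧
    E'.length ≤ 3 * A.card * (3 * A.card)

/-- (LOW) PROOF.  `Γ := SimpleGraph.fromRel (fun x y => (x, y) ∈ E)`, `EqvGen R a b → Γ.Reachable a b`; take a path `p` from `a` to `b` (`Reachable.exists_isPath`).  `d a b` is at most the sum of `d` over
the darts of `p` (induction on the walk, `d a a = 0`, triangle inequality; all vertices of `p` are in `S`: entries of pairs of `E`, or `a`).  The edges of a path are different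
(`IsPath.isTrail.edges_nodup`), each dart `(u, v)` satisfies `(u, v) ∈ E` or `(v, u) ∈ E`: the map dart `↦ (u, v)` resp. `(v, u)` to `E.toFinset` is injective on the darts of `p`, so the sum is at most
`∑ e ∈ E.toFinset, d e.1 e.2 ≤ nlen d E`.  (Or: (T1) with `A = {a, b}` and the path in the tree.) -/
def lLow : Prop := ∀ (X : Type) (S : Set X) (d : X → X → ℝ) (E : List (X × X)) (a b : X),
  PM S d → a ∈ S → b ∈ S → Nd S E → EqvGen (fun x y => (x, y) ∈ E) a b → d a b ≤ nlen d E

/-- (MIN) Existence of shortest networks.  PROOF.  `A` empty: `[]`.  Otherwise, for `k ≤ M := 3 * card A`, a graph `H` on `Fin k` with `H.Connected`, and `σ : A → Fin k` let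
`C_{k,H,σ} = {x : Fin k → X | (∀ i, x i ∈ S) ∧ ∀ a, x (σ a) = a}` (compact: `isCompact_univ_pi` and a closed condition).  `tlen d H` is continuous on it.  The union of the images of the `C_{k,H,σ}`
under `tlen d H` (finitely many indices: `isCompact_iUnion` for finite index types, `Fin (M + 1)`) is compact and, by (T4), (T5), nonempty (there is a network: `(a₀, a)`, `a ∈ A`); take its least element
(`IsCompact.exists_isLeast`); (T2) gives `E`.  An arbitrary network `E'` has, by (T4), (T5), a tree network with `k ≤ M` and `tlen ≤ nlen d E'`, whose `tlen` is in the set. -/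
def lMin : Prop := ∀ (X : Type) [TopologicalSpace X] [T2Space X] (S : Set X) (d : X → X → ℝ)
  (A : Finset X), IsCompact S → PM S d → ContinuousOn (fun p : X × X => d p.1 p.2) (S ×ˢ S) →
  (∀ a ∈ A, a ∈ S) →
  ∃ E : List (X × X), Nd S E ∧ NConn E (A : Set X) ∧
    ∀ E' : List (X × X), Nd S E' → NConn E' (A : Set X) → nlen d E ≤ nlen d E'

/-- (CPT) PROOF.  Closed (for `a ≠ b` not adjacent: `x a = 0 ∨ x b = 0`) and contained in `Set.pi univ (fun _ => Icc 0 1)`. -/
def lCpt : Prop := ∀ (N : ℕ) (V : Finset (Fin N)) (G : SimpleGraph (Fin N)), IsCompact (Pts V G)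

end Pool.Agent.Helper96.GPL
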