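import Pool.Agent.Helper96.GPL.Seg

/-!
# An edge of length zero is a wedge point
-/

set_option autoImplicit false

namespace Pool.Agent.Helper96.GPL

open Relation Classical Pool.Agent.Helper18.GP

theorem nlen_two_le {X : Type} {d : X → X → ℝ} {S : Set X} {r1 r2 : X → X}
    (h : ∀ x ∈ S, ∀ y ∈ S, d (r1 x) (r1 y) + d (r2 x) (r2 y) ≤ d x y) :
    ∀ E : List (X × X), Nd S E →
      nlen d (E.map fun e => (r1 e.1, r1 e.2)) + nlen d (E.map fun e => (r2 e.1, r2 e.2))
        ≤ nlen d E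
  | [], _ => by simp [nlen]
  | e :: E, hE => by
      have ih := nlen_two_le h E fun f hf => hE f (List.mem_cons_of_mem _ hf)
      have h1 := h e.1 (hE e List.mem_cons_self).1 e.2 (hE e List.mem_cons_self).2
      rw [List.map_cons, List.map_cons, nlen_cons, nlen_cons, nlen_cons]
      dsimp only
      linarith

/-- one side of the wedge -/
private theorem side {N : ℕ} {V : Finset (Fin N)} {G : SimpleGraph (Fin N)} {P : Fin N → ℂ}
    (m : MetP V G P) {a b : Fin N} (ha : a ∈ V) (hb : b ∈ V) (W U : Finset (Fin N))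
    (hWU : ∀ v ∈ W, v ∈ U → v = a ∨ v = b)
    (B : Finset (Fin N)) (hBV : B ⊆ V) (h1 : (B ∩ W).Nonempty) (h2 : (B ∩ U).Nonempty)
    (E : List ((Fin N → ℝ) × (Fin N → ℝ))) (hE : Nd (Pts V G) E)
    (hc : NConn E (dl '' (B : Set (Fin N)))) (r : (Fin N → ℝ) → (Fin N → ℝ))
    (hrV : ∀ x ∈ Pts V G, r x ∈ Pts V G) (hr : ∀ v ∈ W, r (dl v) = dl v)
    (hr' : ∀ v ∈ V, v ∉ W → r (dl v) = dl a) :
    Ln V G P (insert a (insert b (B ∩ W))) ≤
      dK V G P (dl a) (dl b) + nlen (dK V G P) (E.map fun e => (r e.1, r e.2)) := by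
  set E1 : List ((Fin N → ℝ) × (Fin N → ℝ)) := (dl a, dl b) :: E.map (fun e => (r e.1, r e.2))
    with hE1
  have hN : Nd (Pts V G) E1 := by
    intro e he
    rw [hE1, List.mem_cons] at he
    rcases he with rfl | he
    · exact ⟨dl_mem G ha, dl_mem G hb⟩
    · rw [List.mem_map] at he
      obtain ⟨f, hf, rfl⟩ := he
      exact ⟨hrV _ (hE f hf).1, hrV _ (hE f hf).2⟩
  have hmono : ∀ x y, EqvGen (fun u v => (u, v) ∈ E.map (fun e => (r e.1, r e.2))) x y →
      EqvGen (fun u v => (u, v) ∈ E1) x y := by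
    intro x y h
    exact EqvGen.mono (fun u v h => List.mem_cons_of_mem _ h) _ _ h
  have hab' : EqvGen (fun u v => (u, v) ∈ E1) (dl a) (dl b) := EqvGen.rel _ _ List.mem_cons_self
  obtain ⟨u, hu⟩ := h1
  obtain ⟨w, hw⟩ := h2
  rw [Finset.mem_inter] at hu hw
  have huw : EqvGen (fun u v => (u, v) ∈ E1) (dl u) (r (dl w)) := by
    have := hmono _ _ (EqvGen_map r (hc (dl u) ⟨u, hu.1, rfl⟩ (dl w) ⟨w, hw.1, rfl⟩))
    rwa [hr u hu.2] at this
  have hua : EqvGen (fun u v => (u, v) ∈ E1) (dl u) (dl a) := by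
    by_cases hwW : w ∈ W
    · rw [hr w hwW] at huw
      rcases hWU w hwW hw.2 with rfl | rfl
      · exact huw
      · exact huw.trans _ _ _ (hab'.symm _ _)
    · rwa [hr' w (hBV hw.1) hwW] at huw
  have hva : ∀ v ∈ insert a (insert b (B ∩ W)), EqvGen (fun u v => (u, v) ∈ E1) (dl v) (dl a) := by
    intro v hv
    rw [Finset.mem_insert, Finset.mem_insert, Finset.mem_inter] at hv
    rcases hv with rfl | rfl | hv
    · exact EqvGen.refl _
    · exact hab'.symm _ _
    · have := hmono _ _ (EqvGen_map r (hc (dl v) ⟨v, hv.1, rfl⟩ (dl u) ⟨u, hu.1, rfl⟩))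
      rw [hr u hu.2, hr v hv.2] at this
      exact this.trans _ _ _ hua
  have := Ln_le m hN (B := insert a (insert b (B ∩ W))) (by
    rintro _ ⟨v, hv, rfl⟩ _ ⟨v', hv', rfl⟩
    exact (hva v hv).trans _ _ _ ((hva v' hv').symm _ _))
  rw [hE1, nlen_cons] at this
  exact this

theorem pZero (hM : stMet) (hG : stGlue) (hL : stLnP) : stZero := by
  intro N V G P hT a ha b hb hab hP B hB h1 h2
  have m := hM N V G P hT
  have g := hG N V G P hT a ha b hb hab
  have hba : b ≠ a := hab.ne'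
  set W1 := Arc V a b with hW1
  set W2 := Arc V b a with hW2
  set r1 : (Fin N → ℝ) → (Fin N → ℝ) := fun x => if x ∈ Pts W1 G then x else dl a with hr1
  set r2 : (Fin N → ℝ) → (Fin N → ℝ) := fun x => if x ∈ Pts W2 G then x else dl a with hr2
  have haV := dl_mem G ha
  have sub1 : ∀ x ∈ Pts W1 G, x ∈ Pts V G := fun x hx =>
    ⟨hx.1, hx.2.1, fun v hv => Arc_sub _ _ _ (hx.2.2.1 v hv), hx.2.2.2⟩
  have sub2 : ∀ x ∈ Pts W2 G, x ∈ Pts V G := fun x hx =>
    ⟨hx.1, hx.2.1, fun v hv => Arc_sub _ _ _ (hx.2.2.1 v hv), hx.2.2.2⟩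
  have hL0 : ‖P a - P b‖ = 0 := by rw [hP, sub_self, norm_zero]
  have hseg : ∀ t ∈ Set.Icc (0 : ℝ) 1, dK V G P (dl a) (seg a b t) = 0 := by
    intro t ht
    rw [dK_a_seg m ha hb hab ht, hL0, mul_zero]
  have hV1 : ∀ x ∈ Pts V G, r1 x ∈ Pts V G := by
    intro x hx
    simp only [hr1]
    split_ifs
    · exact hx
    · exact haV
  have hV2 : ∀ x ∈ Pts V G, r2 x ∈ Pts V G := by
    intro x hx
    simp only [hr2]
    split_ifs
    · exact hx
    · exact haV
  have e1 : ∀ x ∈ Pts W1 G, r1 x = x := fun x hx => by simp only [hr1]; rw [if_pos hx]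
  have e2 : ∀ x ∈ Pts W2 G, r2 x = x := fun x hx => by simp only [hr2]; rw [if_pos hx]
  have z12 : ∀ x ∈ Pts W1 G, dK V G P (dl a) (r2 x) = 0 := by
    intro x hx
    simp only [hr2]
    split_ifs with h
    · obtain ⟨t, ht, rfl⟩ := g.inter x hx h
      exact hseg t ht
    · exact m.self _ haV
  have z21 : ∀ x ∈ Pts W2 G, dK V G P (dl a) (r1 x) = 0 := by
    intro x hx
    simp only [hr1]
    split_ifs with h
    · obtain ⟨t, ht, rfl⟩ := g.inter x h hx
      exact hseg t ht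
    · exact m.self _ haV
  -- the main inequality
  have key : ∀ x ∈ Pts W1 G, ∀ y ∈ Pts W2 G,
      dK V G P (r1 x) (r1 y) + dK V G P (r2 x) (r2 y) ≤ dK V G P x y := by
    intro x hx y hy
    have hxV := sub1 x hx
    have hyV := sub2 y hy
    obtain ⟨t, ht, hd⟩ := g.cross x hx y hy
    have hsV := seg_mem ha hb hab ht
    have hs0 := hseg t ht
    have hs0' : dK V G P (seg a b t) (dl a) = 0 := by rw [m.symm _ hsV _ haV]; exact hs0
    have t1 := m.tri x hxV (seg a b t) hsV (dl a) haV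
    have t2 := m.tri (dl a) haV (seg a b t) hsV y hyV
    have t3 := m.tri (r1 x) (hV1 x hxV) (dl a) haV (r1 y) (hV1 y hyV)
    have t4 := m.tri (r2 x) (hV2 x hxV) (dl a) haV (r2 y) (hV2 y hyV)
    have z1 := z21 y hy
    have z2 := z12 x hx
    rw [m.symm (r2 x) (hV2 x hxV) (dl a) haV, z2] at t4
    rw [z1] at t3
    rw [e1 x hx] at t3 ⊢
    rw [e2 y hy] at t4 ⊢
    linarith
  have key11 : ∀ x ∈ Pts W1 G, ∀ y ∈ Pts W1 G,
      dK V G P (r1 x) (r1 y) + dK V G P (r2 x) (r2 y) ≤ dK V G P x y := by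
    intro x hx y hy
    have hxV := sub1 x hx
    have hyV := sub1 y hy
    have t4 := m.tri (r2 x) (hV2 x hxV) (dl a) haV (r2 y) (hV2 y hyV)
    rw [m.symm (r2 x) (hV2 x hxV) (dl a) haV, z12 x hx, z12 y hy] at t4
    rw [e1 x hx, e1 y hy]
    linarith
  have key22 : ∀ x ∈ Pts W2 G, ∀ y ∈ Pts W2 G,
      dK V G P (r1 x) (r1 y) + dK V G P (r2 x) (r2 y) ≤ dK V G P x y := by
    intro x hx y hy
    have hxV := sub2 x hx
    have hyV := sub2 y hy
    have t4 := m.tri (r1 x) (hV1 x hxV) (dl a) haV (r1 y) (hV1 y hyV)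
    rw [m.symm (r1 x) (hV1 x hxV) (dl a) haV, z21 x hx, z21 y hy] at t4
    rw [e2 x hx, e2 y hy]
    linarith
  have main : ∀ x ∈ Pts V G, ∀ y ∈ Pts V G,
      dK V G P (r1 x) (r1 y) + dK V G P (r2 x) (r2 y) ≤ dK V G P x y := by
    intro x hx y hy
    rcases g.cover x hx with h | h <;> rcases g.cover y hy with h' | h'
    · exact key11 x h y h'
    · exact key x h y h'
    · rw [m.symm (r1 x) (hV1 x hx) (r1 y) (hV1 y hy), m.symm (r2 x) (hV2 x hx) (r2 y) (hV2 y hy),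
        m.symm x hx y hy]
      exact key y h' x h
    · exact key22 x h y h'
  obtain ⟨E, hE, hc, hlen⟩ := (hL N V G P hT).att B hB
  have hlen2 := nlen_two_le main E hE
  have hz : dK V G P (dl a) (dl b) = 0 := by rw [dK_edge m ha hb hab, hL0]
  have dnot : ∀ (W : Finset (Fin N)) (v : Fin N), v ∉ W → (dl v : Fin N → ℝ) ∉ Pts W G := by
    intro W v hv h
    apply hv
    apply h.2.2.1 v
    unfold dl
    rw [Pi.single_eq_same]
    norm_num
  have s1 := side m ha hb W1 W2 (fun v h h' => mem_Arc_both hba h h') B hB h1 h2 E hE hc r1 hV1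
    (fun v hv => e1 _ (dl_mem G hv)) (fun v _ hv => by
      simp only [hr1]; rw [if_neg (dnot W1 v hv)])
  have s2 := side m ha hb W2 W1 (fun v h h' => mem_Arc_both hba h' h) B hB h2 h1 E hE hc r2 hV2
    (fun v hv => e2 _ (dl_mem G hv)) (fun v _ hv => by
      simp only [hr2]; rw [if_neg (dnot W2 v hv)])
  rw [hz] at s1 s2
  rw [hlen]
  linarith

end Pool.Agent.Helper96.GPL
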